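import Pool.Agent.K6.H90.GB.Metric
import Pool.Agent.Results.MP_dd84fd_nt.EveryModulus

/-!
# The formula of Hardy and Littlewood in thin Bohr sets of almost every frequency

For almost every real number `α` the following holds for all `ε, ρ > 0`, `A` and all large `x`: for EVERY real `β` and
every `δ` with `x ^ (-1 + ρ) ≤ δ ≤ 1 / 2`, the Bohr set of the even integers `n ≤ x` with `‖α n - β‖ ≤ δ` (which has
at least `δ x / 16` members, and at most about `δ x`: only `x ^ ρ` for the smallest `δ`) contains at most the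
proportion `(log x) ^ (-A)` of integers `n` for which the formula of Hardy and Littlewood for the number of
Goldbach representations fails with a relative error `ε`. In particular all other members satisfy the lower bound of
the problem with the constant `1 / 2`.

Definitions used (in `Pool.Agent.H560R3.GB`): `g n`: the number of ordered pairs of primes `(p₁, p₂)` with
`p₁ + p₂ = n`; `HL n`: the prediction `sing n * (n / (log n)²)` of Hardy and Littlewood, where
`sing n = 2 C₂ ∏_{p ∣ n, p > 2} (p - 1) / (p - 2)` and `C₂ = ∏_{p > 2} (1 - 1 / (p - 1) ^ 2)`.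

Proof (`K6/H90/GB`). If `|q α - p| x` is small compared with `q δ` and `q δ` is large, the Bohr set is covered by
`O(q δ)` residue classes modulo `q` and has `≫ δ x` even members, so that the theorem of the starting files on the
classes of a regular modulus `q` can be applied. That theorem says nothing for the multiples of the members of a
sparse set `D`, and has other exceptional moduli beyond `x ^ (2 / 3)`. For every fraction `a₂ / q₂` of Dirichlet's
theorem we use a family of approximations of `α`, the mediants with the denominators `u q₁ + q₂`, `u ≤ U = x ^ r`,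
where `a₁ / q₁` is a neighbouring fraction; at least one of these denominators is not divisible by a member of `D`, as
`D` is sparse. The set of the frequencies with a good approximation whose denominator is one of the (few) other
exceptional moduli is small, and the lemma of Borel and Cantelli is applied to the dyadic scales.
-/

set_option autoImplicit false

namespace Pool.Agent.Results.MP_dd84fd_nt.BohrSets

open Finset Filter MeasureTheory
open Pool.Agent.H560R3.GB (g HL)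
open Pool.Agent.K6.H90.GB (ClassFew SumOK Irr Conc inBohr)

/-- The Bohr set of the even integers `0 < n ≤ x` for which the distance of `α n - β` from some integer is at most
`δ`. -/
def bohr (x α β δ : ℝ) : Set ℕ :=
  {n : ℕ | 0 < n ∧ (n : ℝ) ≤ x ∧ 2 ∣ n ∧ ∃ j : ℤ, |α * n - β - j| ≤ δ}

/-- The number `g n` of Goldbach representations differs from the prediction `HL n` of Hardy and Littlewood by at
most `ε HL n`, and is at least `n / (2 (log n)²)`. -/
def Formula (ε : ℝ) (n : ℕ) : Prop :=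
  |(g n : ℝ) - HL n| ≤ ε * HL n ∧ (1 / 2) * ((n : ℝ) / Real.log n ^ 2) ≤ g n

/-- the hypothesis of the metric theorem -/
theorem hyp {ε r : ℝ} (hε : 0 < ε) (hr : 0 < r) (hr1 : r ≤ 1 / 16) (A : ℕ) :
    ∃ (c : ℕ) (x₀ : ℝ), ∀ x : ℝ, x₀ ≤ x → ∃ D : Finset ℕ, SumOK D x r ∧
      ∀ X : ℝ, 1 ≤ X → X ≤ x → ((Irr (Formula ε) (A + 1) D x X).ncard : ℝ) ≤ X ^ 2 * Real.log x ^ c / x := by
  obtain ⟨c, x₁, h⟩ := Pool.Agent.Results.MP_dd84fd_nt.EveryModulus.result ε r hε hr (A + 1) 0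
  refine ⟨c, max x₁ (Real.exp 64), fun x hx => ?_⟩
  obtain ⟨-, D, hD1, hD2, -, hD4⟩ := h x ((le_max_left _ _).trans hx)
  have hx64 : Real.exp 64 ≤ x := (le_max_right _ _).trans hx
  have hx0 : 0 < x := lt_of_lt_of_le (Real.exp_pos _) hx64
  have hl : 64 ≤ Real.log x := by rw [Real.le_log_iff_exp_le hx0]; exact hx64
  have hB : 64 ≤ Real.log x ^ (A + 1) := by
    calc (64 : ℝ) ≤ Real.log x := hl
      _ = Real.log x ^ 1 := (pow_one _).symm
      _ ≤ Real.log x ^ (A + 1) := pow_le_pow_right₀ (by linarith) (by omega)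
  refine ⟨D, ⟨?_, ?_⟩, ?_⟩
  · intro d hd
    have h1 := hD1 d hd
    have : (0 : ℝ) < d := by linarith
    exact_mod_cast this
  · intro U M hU hM hMx hUx
    refine Pool.Agent.K6.H90.GB.sum_a (ρ := r) (by linarith) hB hU hM hD1 hD2 ?_
    have h1 : (M : ℝ) ^ r ≤ x ^ r := Real.rpow_le_rpow (Nat.cast_nonneg _) hMx hr.le
    linarith
  · intro X hX1 hXx
    refine le_trans ?_ (hD4 X hX1 hXx)
    have hsub : Irr (Formula ε) (A + 1) D x X ⊆
        {q : ℕ | 1 ≤ q ∧ (q : ℝ) ≤ X ∧ (∀ d ∈ D, ¬ d ∣ q) ∧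
          ¬ Pool.Agent.Results.MP_dd84fd_nt.EveryModulus.Regular ε (A + 1) x q} := by
      rintro q ⟨h1, h2, h3, h4⟩
      refine ⟨h1, h2, h3, fun hreg => h4 ?_⟩
      intro a
      obtain ⟨f1, f2⟩ := hreg a
      have hs : {n : ℕ | 0 < n ∧ (n : ℝ) ≤ x ∧ (n : ℤ) ≡ a [ZMOD q] ∧ (2 ∣ n ∧ ¬ Formula ε n)} ⊆
          Pool.Agent.Results.MP_dd84fd_nt.EveryModulus.exceptional ε x q a := by
        rintro n ⟨a1, a2, a3, a4, a5⟩
        exact ⟨a1, a2, a4, a3, fun hh => a5 ⟨hh.1, hh.2.1⟩⟩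
      refine ⟨f1.subset hs, le_trans ?_ f2⟩
      exact_mod_cast Set.ncard_le_ncard hs f1
    have hfin : {q : ℕ | 1 ≤ q ∧ (q : ℝ) ≤ X ∧ (∀ d ∈ D, ¬ d ∣ q) ∧
          ¬ Pool.Agent.Results.MP_dd84fd_nt.EveryModulus.Regular ε (A + 1) x q}.Finite := by
      refine (Finset.finite_toSet (Icc 1 ⌊X⌋₊)).subset ?_
      rintro q ⟨h1, h2, -⟩
      rw [Finset.mem_coe, mem_Icc]
      exact ⟨h1, Nat.le_floor h2⟩
    exact_mod_cast Set.ncard_le_ncard hsub hfin

/-- **The formula of Hardy and Littlewood in Bohr sets.** For almost every real `α` the following holds. For all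
`ε, ρ > 0` and `A` there is `x₀` such that for all `x ≥ x₀`, EVERY real `β` and every real `δ` with
`x ^ (-1 + ρ) ≤ δ ≤ 1 / 2`: there are at least `δ x / 16` even integers `0 < n ≤ x` with `‖α n - β‖ ≤ δ`, and at most
the proportion `(log x) ^ (-A)` of them fail to satisfy `|g n - HL n| ≤ ε HL n` and `g n ≥ n / (2 (log n)²)`. -/
theorem result :
    ∀ᵐ α : ℝ, ∀ (ε ρ : ℝ) (A : ℕ), 0 < ε → 0 < ρ →
      ∃ x₀ : ℝ, ∀ x : ℝ, x₀ ≤ x → ∀ β δ : ℝ, x ^ (-1 + ρ) ≤ δ → δ ≤ 1 / 2 →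
        δ * x / 16 ≤ ((bohr x α β δ).ncard : ℝ) ∧
        (({n ∈ bohr x α β δ | ¬ Formula ε n}.ncard : ℕ) : ℝ) ≤ ((bohr x α β δ).ncard : ℝ) / Real.log x ^ A := by
  have h1 : ∀ k A : ℕ, ∀ᵐ α : ℝ, ∃ x₀ : ℝ, ∀ x : ℝ, x₀ ≤ x → ∀ β δ : ℝ,
      x ^ (-1 + 16 * (1 / (16 * ((k : ℝ) + 1)))) ≤ δ → δ ≤ 1 / 2 →
        Conc (Formula (1 / ((k : ℝ) + 1))) A x α β δ := by
    intro k A
    have hk : (0 : ℝ) < (k : ℝ) + 1 := by positivity
    have hr : (0 : ℝ) < 1 / (16 * ((k : ℝ) + 1)) := by positivity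
    have hr1 : (1 : ℝ) / (16 * ((k : ℝ) + 1)) ≤ 1 / 16 := by
      apply one_div_le_one_div_of_le (by norm_num)
      have : (0 : ℝ) ≤ k := Nat.cast_nonneg k
      linarith
    obtain ⟨c, h⟩ := hyp (show (0 : ℝ) < 1 / ((k : ℝ) + 1) by positivity) hr hr1 A
    exact Pool.Agent.K6.H90.GB.metric hr hr1 h
  have h2 : ∀ᵐ α : ℝ, ∀ k A : ℕ, ∃ x₀ : ℝ, ∀ x : ℝ, x₀ ≤ x → ∀ β δ : ℝ,
      x ^ (-1 + 16 * (1 / (16 * ((k : ℝ) + 1)))) ≤ δ → δ ≤ 1 / 2 →
        Conc (Formula (1 / ((k : ℝ) + 1))) A x α β δ := by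
    rw [ae_all_iff]
    intro k
    rw [ae_all_iff]
    intro A
    exact h1 k A
  filter_upwards [h2] with α hα
  intro ε ρ A hε hρ
  obtain ⟨k, hk⟩ := exists_nat_one_div_lt (lt_min hε hρ)
  obtain ⟨x₀, hx₀⟩ := hα k A
  refine ⟨max x₀ 1, fun x hx β δ hδ1 hδ2 => ?_⟩
  have hx1 : 1 ≤ x := (le_max_right _ _).trans hx
  have hkε : 1 / ((k : ℝ) + 1) ≤ ε := (hk.trans_le (min_le_left _ _)).le
  have hkρ : 1 / ((k : ℝ) + 1) ≤ ρ := (hk.trans_le (min_le_right _ _)).le
  have hδ3 : x ^ (-1 + 16 * (1 / (16 * ((k : ℝ) + 1)))) ≤ δ := by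
    refine le_trans ?_ hδ1
    apply Real.rpow_le_rpow_of_exponent_le hx1
    have e : 16 * (1 / (16 * ((k : ℝ) + 1))) = 1 / ((k : ℝ) + 1) := by field_simp
    rw [e]
    linarith
  obtain ⟨c1, c2⟩ := hx₀ x ((le_max_left _ _).trans hx) β δ hδ3 hδ2
  have e1 : inBohr (fun n => 2 ∣ n) x α β δ = bohr x α β δ := by
    ext n
    constructor
    · rintro ⟨a1, a2, a3, a4⟩
      exact ⟨a1, a2, a4, a3⟩
    · rintro ⟨a1, a2, a3, a4⟩
      exact ⟨a1, a2, a4, a3⟩
  have e2 : {n ∈ bohr x α β δ | ¬ Formula ε n} ⊆ inBohr (fun n => 2 ∣ n ∧ ¬ Formula (1 / ((k : ℝ) + 1)) n) x α β δ := by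
    rintro n ⟨⟨a1, a2, a3, a4⟩, a5⟩
    refine ⟨a1, a2, a4, a3, fun hF => a5 ⟨hF.1.trans ?_, hF.2⟩⟩
    exact mul_le_mul_of_nonneg_right hkε (Pool.Agent.Results.MP_dd84fd_nt.EveryModulus.HL_nonneg n)
  rw [e1] at c1 c2
  refine ⟨c1, le_trans ?_ c2⟩
  exact_mod_cast Set.ncard_le_ncard e2 (Pool.Agent.K6.H90.GB.inBohr_finite _ _ _ _ _)

end Pool.Agent.Results.MP_dd84fd_nt.BohrSets
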