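import Pool.Agent.K6.H45.DG.All

/-!
# Goldbach representations of the right order near `u`, `u + v` or `u - v`, or prime pairs with
differences near `v`

Let `g(n)` be the number of the ordered pairs of primes with sum `n` and `π_h(y)` the number of the
primes `p ≤ y` such that `p + h` is prime.

Theorem. For all `ε, λ > 0` there is `κ > 0` such that for all large `x` and ALL `L`, `v` with
`λ log x ≤ L ≤ v ≤ x / 8 - L` at least one of the following holds.

(a) For EVERY `u` with `x ≤ u ≤ 2 x` the three intervals of length `L` which start at `u - v`, `u` and
`u + v` together contain at least `(5 / 27 - ε) (L / 2)` even numbers `n` with `g(n) ≥ κ n / log² n`.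

(b) At least the proportion `5 / 9 - ε` of the even numbers `h` with `v - L / 2 ≤ h < v + L / 2` satisfy
`π_h(3 x) ≥ κ x / log² x`.

So at every distance `v` and at the scale `L = λ log x`: if the lower bound of Q1 fails for almost all
even numbers of the three windows at `u - v`, `u`, `u + v`, for one single `u`, then most of the even
numbers near `v` are differences of the expected number of pairs of primes. (The starting result
`GoldbachOrPrimePairs` is about one window for the sums and about the differences `h ≤ L / 20`; here the
differences are those of a short window at any place `v`, and the sums those of three windows.)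

Proof. For the four forms `n`, `n + w`, `m - n`, `m - w - n`, with `w` near `v` and `m` near `u`, the
coloured Maynard-Tao theorem with the constant `18 / 5`, the right order of magnitude, and hypergraph
containers (starting files) give sets `A₀, A₁, B₀, B₁` of relative densities with sum `> 10 / 9 - ε` in the
multiples `M t`, `t < T`, of the shifts, almost all of whose pairs have the right order. If both kinds
are present, then by Pollard's inequality the popular sums fill the proportion `10 / 9 - ε` of three
classes, of `m` modulo `M` near `u`, of `m + w` near `u + v` and of `m - w` near `u - v`; otherwise `A₀, A₁` or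
`B₀, B₁` alone have density `> 10 / 9 - ε`, and their popular differences fill the proportion `10 / 9 - ε` (of
two) of the class of `w` near `v`. In the first case the mean over `m`, in the second the mean over `w`.
-/

set_option autoImplicit false

namespace Pool.Agent.Results.MP_dd84fd_nt.GoldbachOrDistantPrimePairs

open Filter Finset

/-- the number of the ordered pairs of primes with sum `n` -/
def goldbach (n : ℕ) : ℕ :=
  ((antidiagonal n).filter (fun x => x.1.Prime ∧ x.2.Prime)).card

/-- the number of the primes `p ≤ y` such that `p + h` is prime -/
def primePairs (y h : ℕ) : ℕ :=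
  ((Icc 1 y).filter (fun p => p.Prime ∧ (p + h).Prime)).card

open Classical in
/-- the number of the even `n` with `u ≤ n < u + L` and `g(n) ≥ κ n / log² n` -/
noncomputable def goodSums (κ : ℝ) (u L : ℕ) : ℕ :=
  ((Ico u (u + L)).filter (fun n : ℕ =>
    Even n ∧ κ * (n / (Real.log n) ^ 2) ≤ (goldbach n : ℝ))).card

open Classical in
/-- the number of the even `h` with `v - L / 2 ≤ h < v + L / 2` and `π_h(3 x) ≥ κ x / log² x` -/
noncomputable def goodDifferences (κ : ℝ) (x v L : ℕ) : ℕ :=
  ((Ico (v - L / 2) (v + L / 2)).filter (fun h : ℕ =>
    Even h ∧ κ * (x / (Real.log x) ^ 2) ≤ (primePairs (3 * x) h : ℝ))).card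

/-- **The Goldbach lower bound near `u - v`, `u` or `u + v`, or prime pairs with differences near
`v`.** -/
theorem result : ∀ ε lam : ℝ, 0 < ε → 0 < lam → ∃ κ : ℝ, 0 < κ ∧ ∀ᶠ x : ℕ in atTop,
    ∀ L v : ℕ, lam * Real.log x ≤ L → L ≤ v → 8 * (v + L) ≤ x →
      (∀ u : ℕ, x ≤ u → u ≤ 2 * x →
        (5 / 27 - ε) * (L / 2) ≤
          (goodSums κ u L : ℝ) + (goodSums κ (u + v) L : ℝ) + (goodSums κ (u - v) L : ℝ)) ∨
      (5 / 9 - ε) * (L / 2) ≤ (goodDifferences κ x v L : ℝ) :=
  fun ε lam hε hlam => Pool.Agent.K6.H45.DG.dicho ε lam hε hlam

end Pool.Agent.Results.MP_dd84fd_nt.GoldbachOrDistantPrimePairs
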