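import Pool.Agent.K6.H45.MV.Near
import Pool.Agent.R459.C2
import Pool.Agent.H560R3.GB.Defs

/-!
# The lower bound for the number of Goldbach representations, in all long windows, for all even integers near almost
all values of real polynomials in several variables at points with restricted digits

Definitions used:
* in `Pool.Agent.H560R3.GB`: `g m`: the number of ordered representations of `m` as a sum of two primes; `sing m`: the
  singular series `2 C₂ ∏_{p ∣ m, p > 2} (p - 1) / (p - 2)`, where `C₂ = ∏_{p > 2} (1 - 1 / (p - 1) ^ 2)`;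
* in `Pool.Agent.K6.H45.MV`: `RD b D k`: the integers below `b ^ k` whose `i`-th digit in base `b` lies in `D i`, for all
  `i < k`; `Pts b D k`: the points `q` with `q j ∈ RD b (D j) k` for all the coordinates `j`.

Method: differencing over disjoint blocks of digits gives an inequality of Weyl's type, at every scale, for the
exponential sums over the values of a real polynomial of degree `d ≥ 2` in several variables at points with independent
random digits; hence the values have, up to a constant, the smallest possible additive energy of some order. The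
passage from the energy to Goldbach representations is from the starting files (`Pool.Agent.R459.near_even`).
-/

set_option autoImplicit false

namespace Pool.Agent.Results.MP_dd84fd_nt.PolynomialDigitPoints

open Finset Pool.Agent.H560R3.GB Pool.Agent.K6.H45.MV

/-- The number of ordered representations of `m` as a sum `p + q` of two primes with `y₁ < p ≤ y₂`. -/
def G (m y₁ y₂ : ℕ) : ℕ := ((Ioc y₁ y₂).filter (fun p => p.Prime ∧ (m - p).Prime)).card

/-- (1) `g m ≥ 1.3 m / log ^ 2 m`;
(2) for all windows `(y₁, y₂] ⊆ (0, m]` of length at least `m / log ^ A m` the number `G m y₁ y₂` of the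
representations `m = p + q` with `y₁ < p ≤ y₂` is at least `1.3 (y₂ - y₁) / log ^ 2 m`, and it is
`sing m * (y₂ - y₁) / log ^ 2 m` up to a relative error of at most `ε`. -/
def Holds (ε : ℝ) (A m : ℕ) : Prop :=
  13 / 10 * (m / Real.log m ^ 2) ≤ g m ∧
  ∀ y₁ y₂ : ℕ, y₁ < y₂ → y₂ ≤ m → (m : ℝ) / Real.log m ^ A ≤ (y₂ : ℝ) - y₁ →
    13 / 10 * (((y₂ : ℝ) - y₁) / Real.log m ^ 2) ≤ G m y₁ y₂ ∧
    |(G m y₁ y₂ : ℝ) - sing m * (((y₂ : ℝ) - y₁) / Real.log m ^ 2)| ≤
      ε * (sing m * (((y₂ : ℝ) - y₁) / Real.log m ^ 2))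

/-- `Holds` for all the even integers `m > 0` at a distance of at most `Q` from the real number `v`. -/
def Near (ε : ℝ) (A Q : ℕ) (v : ℝ) : Prop := ∀ m : ℕ, 0 < m → Even m → |(m : ℝ) - v| ≤ Q → Holds ε A m

/-- The value of the real polynomial `F` at the point `q`. -/
noncomputable def value {r : ℕ} (F : MvPolynomial (Fin r) ℝ) (q : Fin r → ℕ) : ℝ := MvPolynomial.eval (fun j => (q j : ℝ)) F

lemma G_full (m : ℕ) : G m 0 m = g m := by
  unfold G g
  apply card_bij' (fun p _ => (p, m - p)) (fun q _ => q.1)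
  · intro p hp
    rw [mem_filter, mem_Ioc] at hp
    rw [mem_filter, HasAntidiagonal.mem_antidiagonal]
    exact ⟨by simp only; omega, hp.2⟩
  · intro q hq
    rw [mem_filter, HasAntidiagonal.mem_antidiagonal] at hq
    rw [mem_filter, mem_Ioc]
    obtain ⟨h1, h2, h3⟩ := hq
    have e : m - q.1 = q.2 := by omega
    rw [e]
    exact ⟨⟨h2.pos, by omega⟩, h2, h3⟩
  · intro p _
    rfl
  · intro q hq
    rw [mem_filter, HasAntidiagonal.mem_antidiagonal] at hq
    ext
    · rfl
    · simp only
      omega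

lemma holds_of (A : ℕ) (ε : ℝ) (m : ℕ) (hm : 3 ≤ m) (hw : Pool.Agent.W93.PG.WinP (min ε (1 / 200)) A m) :
    Holds ε A m := by
  have hmr : (3 : ℝ) ≤ m := by exact_mod_cast hm
  have hlog : 1 ≤ Real.log m := by
    rw [Real.le_log_iff_exp_le (by linarith)]
    linarith [Real.exp_one_lt_d9]
  have key : ∀ y₁ y₂ : ℕ, y₁ < y₂ → y₂ ≤ m → (m : ℝ) / Real.log m ^ A ≤ (y₂ : ℝ) - y₁ →
    13 / 10 * (((y₂ : ℝ) - y₁) / Real.log m ^ 2) ≤ G m y₁ y₂ ∧
    |(G m y₁ y₂ : ℝ) - sing m * (((y₂ : ℝ) - y₁) / Real.log m ^ 2)| ≤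
      ε * (sing m * (((y₂ : ℝ) - y₁) / Real.log m ^ 2)) := by
    intro y₁ y₂ hy hym hl
    have h1 : |(G m y₁ y₂ : ℝ) - sing m * ((y₂ : ℝ) - y₁) / Real.log m ^ 2| ≤
      min ε (1 / 200) * (sing m * ((y₂ : ℝ) - y₁) / Real.log m ^ 2) := hw y₁ y₂ hy hym hl
    obtain ⟨Q, hQ⟩ : ∃ Q : ℝ, Q = ((y₂ : ℝ) - y₁) / Real.log m ^ 2 := ⟨_, rfl⟩
    have hyr : (y₁ : ℝ) < y₂ := by exact_mod_cast hy
    have hQ0 : 0 < Q := by
      rw [hQ]
      apply div_pos (by linarith) (by positivity)
    have e1 : sing m * ((y₂ : ℝ) - y₁) / Real.log m ^ 2 = sing m * Q := by rw [hQ]; ring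
    have hs := Pool.Agent.R459.sing_num m
    have hsQ : 327 / 250 * Q ≤ sing m * Q := mul_le_mul_of_nonneg_right hs hQ0.le
    have hsQ0 : 0 ≤ sing m * Q := by linarith [mul_pos (by norm_num : (0 : ℝ) < 327 / 250) hQ0]
    rw [e1] at h1
    rw [← hQ]
    refine ⟨?_, h1.trans (mul_le_mul_of_nonneg_right (min_le_left _ _) hsQ0)⟩
    have h2 := h1.trans (mul_le_mul_of_nonneg_right (min_le_right _ _) hsQ0)
    rw [abs_le] at h2
    linarith [h2.1]
  refine ⟨?_, key⟩
  have h3 := (key 0 m (by omega) le_rfl (by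
    rw [Nat.cast_zero, sub_zero]
    exact div_le_self (by linarith) (one_le_pow₀ hlog))).1
  rw [G_full, Nat.cast_zero, sub_zero] at h3
  exact h3

open Classical in
/-- Let the number of variables `r`, the base `b ≥ 2`, the degree `d ≥ 2` and `B`, `A`, `W`, `U` and `ε > 0` be fixed,
and let `k` be large. For every variable `j < r` and every position `i < k` let `D j i` be an arbitrary set of at least
two digits in base `b`, and let `P` be the set of all the points `q` such that the coordinate `q j` is below `b ^ k` and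
its `i`-th digit lies in `D j i`, for all `j < r` and `i < k`. Let `F` be an arbitrary polynomial in `r` variables with
real coefficients of total degree at most `d`, with some coefficient of degree `d` between `1 / B` and `B` in absolute
value, and with `F q ≤ B b ^ (d k)` on `P`. (For a fixed polynomial of degree `d` the last two conditions hold as soon
as `B` is large.) Then all the `q ∈ P`, except for at most `#P / k ^ U` of them, have the following property: for ALL
the even integers `m > 0` at a distance of at most `k ^ W` from `F q`, the number of representations of `m` as a sum of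
two primes is at least `1.3 m / log ^ 2 m`; moreover, for all windows `(y₁, y₂] ⊆ (0, m]` with
`y₂ - y₁ ≥ m / log ^ A m` the number of the representations `m = p + p'` with `y₁ < p ≤ y₂` is at least
`1.3 (y₂ - y₁) / log ^ 2 m`, and it is as predicted by Hardy and Littlewood up to a relative error of at most `ε`. -/
theorem result (r b d B A W U : ℕ) (hb : 2 ≤ b) (hd : 2 ≤ d) (ε : ℝ) (hε : 0 < ε) :
    ∃ k₀ : ℕ, ∀ k : ℕ, k₀ ≤ k →
      ∀ D : Fin r → ℕ → Finset ℕ, (∀ j, ∀ i < k, D j i ⊆ range b ∧ 2 ≤ (D j i).card) →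
      ∀ F : MvPolynomial (Fin r) ℝ, F.totalDegree ≤ d →
      (∃ μ : Fin r →₀ ℕ, ∑ i, μ i = d ∧ 1 ≤ B * |F.coeff μ| ∧ |F.coeff μ| ≤ B) →
      (∀ q ∈ Pts b D k, value F q ≤ B * (b : ℝ) ^ (d * k)) →
      (((Pts b D k).filter (fun q => ¬ Near ε A (k ^ W) (value F q))).card : ℝ) ≤ (Pts b D k).card / (k : ℝ) ^ U := by
  obtain ⟨k₀, h⟩ := near_poly (σ := Fin r) b d B A W U 3 hb hd (min ε (1 / 200))
    (lt_min hε (by norm_num)) (Holds ε A) (fun m hm _ hw => holds_of A ε m hm hw)
  refine ⟨k₀, fun k hk D hD F hF hμ hv => ?_⟩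
  obtain ⟨μ, hμ1, hμ2, hμ3⟩ := hμ
  have hev : ∀ q : Fin r → ℕ, ev F (fun j => (q j : ℤ)) = value F q := by
    intro q
    unfold ev value
    simp only [Int.cast_natCast]
  refine h k hk D hD F hF μ hμ1 hμ2 hμ3 (fun q hq => by rw [hev]; exact hv q hq) _ ?_
  intro q hq
  unfold Near at hq
  push Not at hq
  obtain ⟨m, h1, h2, h3, h4⟩ := hq
  exact ⟨m, h1, h2, by rw [hev]; push_cast at h3; exact h3, h4⟩

end Pool.Agent.Results.MP_dd84fd_nt.PolynomialDigitPoints
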