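import Pool.Agent.K6.H45.RT.All

/-!
# Goldbach's equation or one of two others: the right order of magnitude in every window

Let `R(m)` be the number of the primes `p ≤ 2 N` for which `m - p` is a prime, `R'(m)` the number of those
for which `2 p - m` is a prime, and `R''(m)` the number of those for which `m - 2 p` is a prime.

Theorem. For all `ε, λ > 0` there is `κ > 0` such that for EVERY large `N` and EVERY `H` with
`λ log N ≤ H ≤ N / 50` the number of the integers `m` with `|m - 2 N| ≤ H` and `R(m) ≥ κ N / log² N`, plus the
number of those with `|m - N| ≤ H` and `R'(m) ≥ κ N / log² N`, plus the number of those with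
`|m - 3 N| ≤ H` and `R''(m) ≥ κ N / log² N` is at least `(5 / 27 - ε) H`.

So for one of the three binary equations `p + q = m`, `2 p - q = m`, `2 p + q = m` at least `(5 / 81 - ε) H`
of the integers `m` at distance at most `H` of `2 N`, `N` or `3 N`, respectively, have the expected number of
representations, up to a constant. (The starting result `ThreeEquationsDensity` has `N ^ (1 - η)`
solutions and `H / 110`; the right order of magnitude was known for the slopes `±1` only, that is for
sums `p + q` and differences `p - q`.)

Proof. The coloured Maynard-Tao theorem with the constant `18 / 5`, right order of magnitude, for the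
classes of the forms `n + c₀`, `-n + c₁`, `2 n + c₂`, `-2 n + c₃` (from the starting files, for constant
terms up to `5 / 4` of the range), the moments of the number of rough values of these forms in short
windows, and hypergraph containers give for all `c_i` near `N` (admissible modulo `6`) sets
`A₀, …, A₃` of relative densities with sum `> 10 / 9 - ε` in the multiples `M t`, `t < T`, of the shifts,
almost all of whose pairs have the right order. Two of these sets are present, and by Pollard's
inequality the popular values of `x + y`, `2 x - y`, `2 x + y` fill the proportion `10 / 9 - ε`, in total, of the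
six classes of the `m` modulo `M`. The mean over the `c_i` with five choices of the residues modulo `6`
gives the theorem.
-/

set_option autoImplicit false

namespace Pool.Agent.Results.MP_dd84fd_nt.ThreeEquationsRightOrder

open Filter Finset

open Classical in
/-- the number of the primes `p ≤ 2 N` such that `a p + b q = m` for some prime `q` -/
noncomputable def solutions (a b : ℤ) (N : ℕ) (m : ℤ) : ℕ :=
  ((Icc 1 (2 * N)).filter (fun p : ℕ => p.Prime ∧ ∃ q : ℕ, q.Prime ∧ a * p + b * q = m)).card

open Classical in
/-- the number of the integers `m` with `|m - c N| ≤ H` for which `a p + b q = m` has at least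
`κ N / log² N` solutions -/
noncomputable def good (κ : ℝ) (N H : ℕ) (a b c : ℤ) : ℕ :=
  ((Icc (c * N - H) (c * N + H)).filter (fun m : ℤ =>
    κ * (N / (Real.log N) ^ 2) ≤ (solutions a b N m : ℝ))).card

/-- **Three binary equations, with the right order of magnitude, in every window of length
`λ log N`.** -/
theorem result : ∀ ε lam : ℝ, 0 < ε → 0 < lam → ∃ κ : ℝ, 0 < κ ∧ ∀ᶠ N : ℕ in atTop,
    ∀ H : ℕ, lam * Real.log N ≤ H → 50 * H ≤ N →
      (5 / 27 - ε) * H ≤ (good κ N H 1 1 2 : ℝ) + (good κ N H 2 (-1) 1 : ℝ) + (good κ N H 2 1 3 : ℝ) :=
  fun ε lam hε hlam => Pool.Agent.K6.H45.RT.three_final ε lam hε hlam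

end Pool.Agent.Results.MP_dd84fd_nt.ThreeEquationsRightOrder
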